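import Mathlib
import Pool.Agent.Helper523.LitFinal

set_option autoImplicit false

namespace Pool.Agent.Results.MP_a4d033_an.BoundedCoeffs

open Polynomial

/-- The class B_n: complex polynomials of degree at most n with constant coefficient of modulus 1
and all coefficients of modulus at most 1. -/
def ClassB (n : ℕ) : Set ℂ[X] :=
  {p | p.natDegree ≤ n ∧ ‖p.coeff 0‖ = 1 ∧ ∀ j, ‖p.coeff j‖ ≤ 1}

/-- The set of (distinct) real zeros of p in the interval [-1+a, 1-a]. -/
def zeroSet (p : ℂ[X]) (a : ℝ) : Set ℝ :=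
  {x : ℝ | -1 + a ≤ x ∧ x ≤ 1 - a ∧ p.eval (x : ℂ) = 0}

/-- The set of zeros of a nonzero polynomial is finite (sanity check: ncard below is genuine). -/
lemma zeroSet_finite (p : ℂ[X]) (hp : p ≠ 0) (a : ℝ) : (zeroSet p a).Finite := by
  have h : (fun x : ℝ => (x : ℂ)) '' (zeroSet p a) ⊆ (p.roots.toFinset : Set ℂ) := by
    rintro _ ⟨x, hx, rfl⟩
    simp only [Finset.mem_coe, Multiset.mem_toFinset]
    rw [mem_roots hp]
    exact hx.2.2
  have h2 := (p.roots.toFinset.finite_toSet).subset h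
  exact Set.Finite.of_finite_image h2 (fun x _ y _ hxy => by exact_mod_cast hxy)

theorem result : ∃ c : ℝ, 0 < c ∧ ∀ n : ℕ, 1 ≤ n → ∀ a : ℝ, 1 / Real.sqrt n ≤ a → a < 1 →
    (∑ j ∈ Finset.Icc 1 n, (1 - a) ^ j < 1 → ∀ p ∈ ClassB n, zeroSet p a = ∅) ∧
    (1 ≤ ∑ j ∈ Finset.Icc 1 n, (1 - a) ^ j →
      ∃ p ∈ ClassB n, (zeroSet p a).Finite ∧ c / a ≤ ((zeroSet p a).ncard : ℝ)) := by
  refine ⟨1 / 3842, by norm_num, ?_⟩
  intro n hn a ha ha1
  have hn0 : (0 : ℝ) < n := by exact_mod_cast hn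
  have ha0 : 0 < a := lt_of_lt_of_le (by have := Real.sqrt_pos.mpr hn0; positivity) ha
  have hsum : ∀ f : ℕ → ℝ, ∑ j ∈ Finset.Icc 1 n, f j = ∑ j ∈ Finset.range n, f (j + 1) := by
    intro f
    rw [Finset.range_eq_Ico, Finset.sum_Ico_add' f 0 n 1]
    rfl
  constructor
  · intro hlt p hp
    obtain ⟨hdeg, h0, hcoef⟩ := hp
    rw [Set.eq_empty_iff_forall_notMem]
    rintro x ⟨hx1, hx2, hx3⟩
    have habs : |x| ≤ 1 - a := by rw [abs_le]; constructor <;> linarith
    rw [eval_eq_sum_range' (lt_of_le_of_lt hdeg (Nat.lt_succ_self n)),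
      Finset.sum_range_succ'] at hx3
    have h1 : p.coeff 0 = - ∑ k ∈ Finset.range n, p.coeff (k + 1) * (x : ℂ) ^ (k + 1) := by
      simp only [pow_zero, mul_one] at hx3
      linear_combination hx3
    have h2 : (1 : ℝ) ≤ ∑ k ∈ Finset.range n, (1 - a) ^ (k + 1) := by
      have h01 : (1 : ℝ) = ‖∑ k ∈ Finset.range n, p.coeff (k + 1) * (x : ℂ) ^ (k + 1)‖ := by
        rw [← h0, h1, norm_neg]
      refine h01.le.trans ?_
      refine (norm_sum_le _ _).trans ?_
      apply Finset.sum_le_sum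
      intro k _
      rw [norm_mul, norm_pow, Complex.norm_real, Real.norm_eq_abs]
      calc ‖p.coeff (k + 1)‖ * |x| ^ (k + 1) ≤ 1 * |x| ^ (k + 1) :=
            mul_le_mul_of_nonneg_right (hcoef _) (by positivity)
        _ = |x| ^ (k + 1) := one_mul _
        _ ≤ (1 - a) ^ (k + 1) := pow_le_pow_left₀ (abs_nonneg _) habs _
    rw [hsum] at hlt
    linarith
  · intro hge
    rw [hsum] at hge
    obtain ⟨ε, hε, S, hS, hS2⟩ := Pool.Agent.Helper523.LitFinal.lit_all n a ha hn ha1 hge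
    set p : ℂ[X] := Pool.Agent.Helper523.LitFinal.poly (fun j => ((ε j : ℝ) : ℂ)) n with hp
    have hnorm : ∀ j, ‖((ε j : ℝ) : ℂ)‖ = 1 := by
      intro j
      rcases hε j with h | h <;> rw [h] <;> simp
    have hc : ∀ j, p.coeff j = if j ≤ n then ((ε j : ℝ) : ℂ) else 0 := fun j =>
      Pool.Agent.Helper523.LitFinal.poly_coeff _ n j
    have hp0 : p ≠ 0 := by
      intro h
      have h1 := hc 0
      rw [h, coeff_zero, if_pos (Nat.zero_le n)] at h1
      have h2 := hnorm 0
      rw [← h1] at h2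
      simp at h2
    refine ⟨p, ⟨?_, ?_, ?_⟩, zeroSet_finite p hp0 a, ?_⟩
    · rw [natDegree_le_iff_coeff_eq_zero]
      intro j hj
      rw [hc, if_neg (by omega)]
    · rw [hc, if_pos (Nat.zero_le n), hnorm]
    · intro j
      rw [hc]
      split_ifs
      · rw [hnorm]
      · simp
    · refine hS.trans ?_
      have hsub : (S : Set ℝ) ⊆ zeroSet p a := by
        intro z hz
        obtain ⟨h1, h2, h3⟩ := hS2 z hz
        refine ⟨by linarith, h3, ?_⟩
        rw [hp]
        unfold Pool.Agent.Helper523.LitFinal.poly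
        rw [eval_finsetSum]
        have : (((∑ j ∈ Finset.range (n + 1), ε j * z ^ j : ℝ)) : ℂ) = 0 := by rw [h1]; simp
        push_cast at this
        rw [← this]
        apply Finset.sum_congr rfl
        intro j _
        simp
      have h4 := Set.ncard_le_ncard hsub (zeroSet_finite p hp0 a)
      rw [Set.ncard_coe_finset] at h4
      exact_mod_cast h4

end Pool.Agent.Results.MP_a4d033_an.BoundedCoeffs
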