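import Mathlib
import Pool.Agent.Helper523.LitFinal

set_option autoImplicit false

namespace Pool.Agent.Results.MP_a4d033_an.HeightOne

open Polynomial

/-- The class F_n: integer polynomials of degree at most n with all coefficients in {-1,0,1}. -/
def ClassF (n : ℕ) : Set ℤ[X] :=
  {p | p.natDegree ≤ n ∧ ∀ j, p.coeff j ∈ ({-1, 0, 1} : Set ℤ)}

/-- The set of (distinct) real zeros of p in the interval [-1+a, 1-a]. -/
def zeroSet (p : ℤ[X]) (a : ℝ) : Set ℝ :=
  {x : ℝ | -1 + a ≤ x ∧ x ≤ 1 - a ∧ aeval x p = 0}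

/-- The set of zeros of a nonzero polynomial is finite (sanity check: ncard below is genuine). -/
lemma zeroSet_finite (p : ℤ[X]) (hp : p ≠ 0) (a : ℝ) : (zeroSet p a).Finite := by
  have hp' : p.map (Int.castRingHom ℝ) ≠ 0 := by
    rwa [Ne, Polynomial.map_eq_zero_iff (RingHom.injective_int _)]
  have h : zeroSet p a ⊆ ((p.map (Int.castRingHom ℝ)).roots.toFinset : Set ℝ) := by
    intro x hx
    simp only [Finset.mem_coe, Multiset.mem_toFinset]
    rw [mem_roots hp']
    have := hx.2.2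
    rw [aeval_def, eval₂_eq_eval_map] at this
    exact this
  exact (Finset.finite_toSet _).subset h

lemma main (n : ℕ) (hn : 1 ≤ n) (a : ℝ) (ha : 1 / Real.sqrt n ≤ a) (ha1 : a < 1)
    (hge : 1 ≤ ∑ j ∈ Finset.Icc 1 n, (1 - a) ^ j) :
    ∃ p ∈ ClassF n, (∀ j ≤ n, p.coeff j = 1 ∨ p.coeff j = -1) ∧ p ≠ 0 ∧
      (zeroSet p a).Finite ∧ (1 / 3842) / a ≤ ((zeroSet p a).ncard : ℝ) := by
  have hsum : ∀ f : ℕ → ℝ, ∑ j ∈ Finset.Icc 1 n, f j = ∑ j ∈ Finset.range n, f (j + 1) := by
    intro f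
    rw [Finset.range_eq_Ico, Finset.sum_Ico_add' f 0 n 1]
    rfl
  rw [hsum] at hge
  obtain ⟨ε, hε, S, hS, hS2⟩ := Pool.Agent.Helper523.LitFinal.lit_all n a ha hn ha1 hge
  set e : ℕ → ℤ := fun j => if ε j = 1 then 1 else -1 with he
  have hee : ∀ j, ((e j : ℤ) : ℝ) = ε j := by
    intro j
    rw [he]
    rcases hε j with h | h
    · simp [h]
    · simp only
      rw [if_neg (by rw [h]; norm_num), h]; norm_num
  set p : ℤ[X] := Pool.Agent.Helper523.LitFinal.poly e n with hp
  have hc : ∀ j, p.coeff j = if j ≤ n then e j else 0 := fun j =>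
    Pool.Agent.Helper523.LitFinal.poly_coeff _ n j
  have he1 : ∀ j, e j = 1 ∨ e j = -1 := by
    intro j
    rw [he]; simp only
    split_ifs <;> simp
  have hp0 : p ≠ 0 := by
    intro h
    have h1 := hc 0
    rw [h, coeff_zero, if_pos (Nat.zero_le n)] at h1
    rcases he1 0 with h2 | h2 <;> rw [h2] at h1 <;> norm_num at h1
  refine ⟨p, ⟨?_, ?_⟩, ?_, hp0, zeroSet_finite p hp0 a, ?_⟩
  · rw [natDegree_le_iff_coeff_eq_zero]
    intro j hj
    rw [hc, if_neg (by omega)]
  · intro j
    rw [hc]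
    split_ifs
    · rcases he1 j with h | h <;> rw [h] <;> simp
    · simp
  · intro j hj
    rw [hc, if_pos hj]
    exact he1 j
  · refine hS.trans ?_
    have hsub : (S : Set ℝ) ⊆ zeroSet p a := by
      intro z hz
      obtain ⟨h1, h2, h3⟩ := hS2 z hz
      refine ⟨by linarith, h3, ?_⟩
      rw [hp]
      unfold Pool.Agent.Helper523.LitFinal.poly
      rw [map_sum, ← h1]
      apply Finset.sum_congr rfl
      intro j _
      simp [hee]
    have h4 := Set.ncard_le_ncard hsub (zeroSet_finite p hp0 a)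
    rw [Set.ncard_coe_finset] at h4
    exact_mod_cast h4

theorem result : ∃ c : ℝ, 0 < c ∧ ∀ n : ℕ, 1 ≤ n → ∀ a : ℝ, 1 / Real.sqrt n ≤ a → a < 1 →
    (∃ p ∈ ClassF n, p ≠ 0 ∧ (zeroSet p a).Finite ∧ c / a ≤ ((zeroSet p a).ncard : ℝ)) ∧
    (1 ≤ ∑ j ∈ Finset.Icc 1 n, (1 - a) ^ j →
      ∃ p ∈ ClassF n, (∀ j ≤ n, p.coeff j = 1 ∨ p.coeff j = -1) ∧
        (zeroSet p a).Finite ∧ c / a ≤ ((zeroSet p a).ncard : ℝ)) := by
  refine ⟨1 / 3842, by norm_num, ?_⟩
  intro n hn a ha ha1
  have hn0 : (0 : ℝ) < n := by exact_mod_cast hn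
  have hsq : 0 < Real.sqrt n := Real.sqrt_pos.mpr hn0
  have ha0 : 0 < a := lt_of_lt_of_le (by positivity) ha
  refine ⟨?_, ?_⟩
  · by_cases hge : 1 ≤ ∑ j ∈ Finset.Icc 1 n, (1 - a) ^ j
    · obtain ⟨p, h1, _, h3, h4, h5⟩ := main n hn a ha ha1 hge
      exact ⟨p, h1, h3, h4, h5⟩
    · -- here a is larger than 1/3842, and the zero at the origin of the polynomial X suffices
      have hbig : 1 / 3842 < a := by
        by_contra hcon
        push Not at hcon
        apply hge
        have hn2 : 2 ≤ n := by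
          by_contra hlt
          have : n = 1 := by omega
          rw [this] at ha
          norm_num at ha
          linarith
        have hsubs : Finset.Icc 1 2 ⊆ Finset.Icc 1 n := Finset.Icc_subset_Icc_right hn2
        have h2 := Finset.sum_le_sum_of_subset_of_nonneg (f := fun j : ℕ => (1 - a) ^ j) hsubs
          (fun i _ _ => pow_nonneg (by linarith) i)
        have h3 : ∑ j ∈ Finset.Icc 1 2, (1 - a) ^ j = (1 - a) + (1 - a) ^ 2 := by
          have : Finset.Icc 1 2 = {1, 2} := by decide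
          rw [this, Finset.sum_pair (by norm_num)]
          ring
        rw [h3] at h2
        nlinarith
      refine ⟨X, ⟨?_, ?_⟩, X_ne_zero, zeroSet_finite X X_ne_zero a, ?_⟩
      · rw [natDegree_X]; exact hn
      · intro j
        rw [coeff_X]
        split_ifs <;> simp
      · have hsub : ({0} : Set ℝ) ⊆ zeroSet X a := by
          intro z hz
          rw [Set.mem_singleton_iff] at hz
          rw [hz]
          exact ⟨by linarith, by linarith, by simp⟩
        have h4 := Set.ncard_le_ncard hsub (zeroSet_finite X X_ne_zero a)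
        rw [Set.ncard_singleton] at h4
        have h5 : (1 : ℝ) ≤ ((zeroSet X a).ncard : ℝ) := by exact_mod_cast h4
        refine le_trans ?_ h5
        rw [div_le_one ha0]; exact hbig.le
  · intro hge
    obtain ⟨p, h1, h2, _, h4, h5⟩ := main n hn a ha ha1 hge
    exact ⟨p, h1, h2, h4, h5⟩

end Pool.Agent.Results.MP_a4d033_an.HeightOne
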